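import Pool.Agent.Y325.SC.Stm

/-!
Project SC (helper325), part LOW (helper980): lower bound of the tail.
-/

set_option autoImplicit false

open MeasureTheory ProbabilityTheory
open scoped ENNReal NNReal

namespace Pool.Agent.Y980.SC

open Pool.Agent.Y325.SC Pool.Agent.H836R3

/-- lower bound of the Gaussian measure of a set close to the centre -/
lemma gauss_low (a : ℝ) {σ : ℝ} (hσ : 0 < σ) (s : Set ℝ) (hs : MeasurableSet s)
    (h : ∀ x ∈ s, |x - a| ≤ σ) :
    ENNReal.ofReal ((Real.sqrt (2 * Real.pi * σ ^ 2))⁻¹ * Real.exp (-1 / 2)) * volume s ≤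
      gaussianReal a (Real.toNNReal (σ ^ 2)) s := by
  have h1 : Real.toNNReal (σ ^ 2) ≠ 0 := by
    rw [Ne, Real.toNNReal_eq_zero, not_le]
    positivity
  rw [gaussianReal_apply _ h1, ← setLIntegral_const]
  refine setLIntegral_mono' hs fun x hx => ?_
  rw [gaussianPDF]
  apply ENNReal.ofReal_le_ofReal
  rw [gaussianPDFReal, Real.coe_toNNReal _ (by positivity)]
  refine mul_le_mul_of_nonneg_left ?_ (by positivity)
  rw [Real.exp_le_exp, div_le_div_iff₀ (by norm_num) (by positivity)]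
  have h2 : (x - a) ^ 2 ≤ σ ^ 2 := by
    rw [← sq_abs]
    exact pow_le_pow_left₀ (abs_nonneg _) (h x hx) 2
  nlinarith

/-- the perturbation -/
noncomputable def pert (A : ℝ) : Data 1 1 := fun k => if k = Sum.inl (0, 0) then -A else 0

lemma frob_pert {A : ℝ} (hA : 0 < A) : frob (pert A) = A := by
  unfold frob
  have : ∑ k, pert A k ^ 2 = A ^ 2 := by
    rw [sum_data]
    simp [pert]
  rw [this, Real.sqrt_sq hA.le]

lemma half_iff (x : Fin 1 → ℝ) : x ∈ half ↔ 0 ≤ x 0 := Iff.rfl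

lemma feas_iff (d : Data 1 1) : PrimalFeasible half half d ↔
    ∃ x : ℝ, 0 ≤ x ∧ 0 ≤ d (Sum.inl (0, 0)) * x - d (Sum.inr (Sum.inl 0)) := by
  unfold PrimalFeasible
  constructor
  · rintro ⟨x, hx, h⟩
    refine ⟨x 0, hx, ?_⟩
    rw [half_iff] at h
    simpa [Matrix.mulVec, dotProduct, matA, vecB] using h
  · rintro ⟨x, hx, h⟩
    refine ⟨fun _ => x, hx, ?_⟩
    rw [half_iff]
    simpa [Matrix.mulVec, dotProduct, matA, vecB] using h

lemma rho_le (d : Data 1 1) (hA : 0 < d (Sum.inl (0, 0))) (hb : 1 ≤ d (Sum.inr (Sum.inl 0))) :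
    rho half half d ≤ ENNReal.ofReal (d (Sum.inl (0, 0))) := by
  unfold rho
  refine iSup₂_le fun δ hδ => ?_
  by_contra hcon
  push Not at hcon
  have h1 : d (Sum.inl (0, 0)) < δ := by
    rw [ENNReal.ofReal_lt_iff_lt_toReal hA.le ENNReal.coe_ne_top] at hcon
    simpa using hcon
  obtain ⟨h2, -⟩ := hδ (pert (d (Sum.inl (0, 0)))) (by rw [frob_pert hA]; exact h1.le)
  rw [feas_iff, feas_iff] at h2
  obtain ⟨x, hx, h3⟩ := h2.mpr ⟨d (Sum.inr (Sum.inl 0)) / d (Sum.inl (0, 0)), by positivity, by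
    rw [mul_div_cancel₀ _ hA.ne']
    linarith⟩
  simp [pert] at h3
  linarith

lemma frob_ge (d : Data 1 1) (hb : 1 ≤ d (Sum.inr (Sum.inl 0))) : 1 ≤ frob d := by
  unfold frob
  rw [Real.one_le_sqrt, sum_data]
  simp
  nlinarith [sq_nonneg (d (Sum.inl (0, 0))), sq_nonneg (d (Sum.inr (Sum.inr 0)))]

lemma cond_ge (d : Data 1 1) {t : ℝ} (ht : 0 < t) (hA : 0 < d (Sum.inl (0, 0)))
    (hAt : d (Sum.inl (0, 0)) ≤ 1 / t) (hb : 1 ≤ d (Sum.inr (Sum.inl 0))) :
    ENNReal.ofReal t ≤ condNum half half d := by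
  unfold condNum
  split_ifs with h
  · exact le_top
  · have h1 := rho_le d hA hb
    have h2 : ENNReal.ofReal t ≤ 1 / ENNReal.ofReal (d (Sum.inl (0, 0))) := by
      rw [one_div, ← ENNReal.ofReal_inv_of_pos hA]
      apply ENNReal.ofReal_le_ofReal
      rw [le_inv_comm₀ ht hA]
      simpa using hAt
    refine h2.trans ?_
    refine ENNReal.div_le_div ?_ h1
    rw [← ENNReal.ofReal_one]
    exact ENNReal.ofReal_le_ofReal (frob_ge d hb)

/-- the sides of the rectangle -/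
def sides (σ t : ℝ) : (Fin 1 × Fin 1) ⊕ (Fin 1 ⊕ Fin 1) → Set ℝ
  | Sum.inl _ => Set.Ioc 0 (1 / t)
  | Sum.inr (Sum.inl _) => Set.Icc 1 (1 + σ)
  | Sum.inr (Sum.inr _) => Set.univ

theorem low : StmLow := by
  refine ⟨Real.exp (-1) / (2 * Real.pi), by positivity, ?_⟩
  intro σ hσ hσ1 t ht
  have ht0 : 0 < t := lt_of_lt_of_le (by positivity) ht
  have htσ : 1 / t ≤ σ := by
    rw [div_le_iff₀ ht0]
    rw [div_le_iff₀ hσ] at ht
    linarith
  have hsub : Set.univ.pi (sides σ t) ⊆ {d : Data 1 1 | ENNReal.ofReal t ≤ condNum half half d} := by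
    intro d hd
    have h1 := hd (Sum.inl (0, 0)) (Set.mem_univ _)
    have h2 := hd (Sum.inr (Sum.inl 0)) (Set.mem_univ _)
    exact cond_ge d ht0 h1.1 h1.2 h2.1
  refine le_trans ?_ (measure_mono hsub)
  unfold gaussPi
  rw [Measure.pi_pi, Fintype.prod_sum_type, Fintype.prod_sum_type, Fintype.prod_prod_type]
  simp only [Finset.univ_unique, Finset.prod_singleton, Fin.default_eq_zero]
  have e1 : a01 (Sum.inl (0, 0)) = 0 := by simp [a01]
  have e2 : a01 (Sum.inr (Sum.inl 0)) = 1 := by simp [a01]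
  rw [e1, e2]
  have h1 := gauss_low 0 hσ (Set.Ioc 0 (1 / t)) measurableSet_Ioc (by
    intro x hx
    rw [sub_zero, abs_of_pos hx.1]
    exact hx.2.trans htσ)
  have h2 := gauss_low 1 hσ (Set.Icc 1 (1 + σ)) measurableSet_Icc (by
    intro x hx
    rw [abs_of_nonneg (by linarith [hx.1])]
    linarith [hx.2])
  rw [Real.volume_Ioc, sub_zero] at h1
  rw [Real.volume_Icc, add_sub_cancel_left] at h2
  have h3 : gaussianReal (a01 (Sum.inr (Sum.inr 0))) (Real.toNNReal (σ ^ 2)) Set.univ = 1 :=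
    measure_univ
  set w : ℝ := (Real.sqrt (2 * Real.pi * σ ^ 2))⁻¹ * Real.exp (-1 / 2) with hw
  have hw2 : w * w = Real.exp (-1) / (2 * Real.pi * σ ^ 2) := by
    rw [hw, mul_mul_mul_comm, ← Real.exp_add, ← mul_inv, Real.mul_self_sqrt (by positivity)]
    rw [show (-1 / 2 : ℝ) + -1 / 2 = -1 by norm_num]
    ring
  have hw0 : 0 ≤ w := by positivity
  calc ENNReal.ofReal (Real.exp (-1) / (2 * Real.pi) / (σ * t)) =
        (ENNReal.ofReal w * ENNReal.ofReal (1 / t)) *
          ((ENNReal.ofReal w * ENNReal.ofReal σ) * 1) := by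
        rw [mul_one, ← ENNReal.ofReal_mul hw0, ← ENNReal.ofReal_mul hw0,
          ← ENNReal.ofReal_mul (by positivity)]
        congr 1
        have : w * (1 / t) * (w * σ) = (w * w) * σ / t := by ring
        rw [this, hw2]
        field_simp
    _ ≤ _ := by
        refine mul_le_mul' h1 (mul_le_mul' h2 ?_)
        exact h3.ge

end Pool.Agent.Y980.SC
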