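import Pool.Agent.Y325.SC.Stm

/-!
Project SC (helper325), part MOM (helper980): fractional moments and expected logarithm from a
tail bound.
-/

set_option autoImplicit false

open MeasureTheory ProbabilityTheory
open scoped ENNReal NNReal

namespace Pool.Agent.Y980.SC

open Pool.Agent.Y325.SC Pool.Agent.H836R3

lemma int_low {Q p : ℝ} (hQ : 0 < Q) (hp : 0 < p) :
    ∫⁻ t in Set.Ioc 0 Q, ENNReal.ofReal (t ^ (p - 1)) = ENNReal.ofReal (Q ^ p / p) := by
  have h1 : IntervalIntegrable (fun t : ℝ => t ^ (p - 1)) volume 0 Q :=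
    intervalIntegral.intervalIntegrable_rpow' (by linarith)
  have h2 : IntegrableOn (fun t : ℝ => t ^ (p - 1)) (Set.Ioc 0 Q) volume :=
    (intervalIntegrable_iff_integrableOn_Ioc_of_le hQ.le).mp h1
  rw [← ofReal_integral_eq_lintegral_ofReal h2]
  · rw [← intervalIntegral.integral_of_le hQ.le, integral_rpow (Or.inl (by linarith))]
    congr 1
    rw [sub_add_cancel, Real.zero_rpow hp.ne', sub_zero]
  · filter_upwards [ae_restrict_mem measurableSet_Ioc] with t ht
    exact Real.rpow_nonneg ht.1.le _

lemma int_high {Q p : ℝ} (hQ : 0 < Q) (hp1 : p < 1) :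
    ∫⁻ t in Set.Ioi Q, ENNReal.ofReal (t ^ (p - 2)) = ENNReal.ofReal (Q ^ (p - 1) / (1 - p)) := by
  have h2 : IntegrableOn (fun t : ℝ => t ^ (p - 2)) (Set.Ioi Q) volume :=
    integrableOn_Ioi_rpow_of_lt (by linarith) hQ
  rw [← ofReal_integral_eq_lintegral_ofReal h2]
  · rw [integral_Ioi_rpow_of_lt (by linarith) hQ]
    congr 1
    rw [show p - 2 + 1 = -(1 - p) by ring, show p - 1 = -(1 - p) by ring]
    rw [neg_div_neg_eq]
  · filter_upwards [ae_restrict_mem measurableSet_Ioi] with t ht
    exact Real.rpow_nonneg (hQ.trans ht).le _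

theorem mom : StmMom := by
  intro Ω _ μ _ f hf Q hQ htail p hp hp1
  have hfin : ∀ᵐ ω ∂μ, f ω ≠ ⊤ := by
    rw [ae_iff]
    simp only [not_not]
    have h1 : ∀ t : ℝ, 0 < t → μ {ω | f ω = ⊤} ≤ ENNReal.ofReal (Q / t) := fun t ht =>
      (measure_mono fun ω (hω : f ω = ⊤) => by
        show ENNReal.ofReal t ≤ f ω
        rw [hω]
        exact le_top).trans (htail t ht)
    refine le_antisymm ?_ bot_le
    refine ENNReal.le_of_forall_pos_le_add fun ε hε _ => ?_
    rw [zero_add]
    have h2 := h1 (Q / ε) (div_pos hQ (by exact_mod_cast hε))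
    rw [div_div_cancel₀ hQ.ne'] at h2
    exact h2.trans (by rw [ENNReal.ofReal_coe_nnreal])
  set g : Ω → ℝ := fun ω => (f ω).toReal with hg
  have hgm : Measurable g := hf.ennreal_toReal
  have hg0 : 0 ≤ᵐ[μ] g := Filter.Eventually.of_forall fun ω => ENNReal.toReal_nonneg
  have h1 : ∫⁻ ω, f ω ^ p ∂μ = ∫⁻ ω, ENNReal.ofReal (g ω ^ p) ∂μ := by
    refine lintegral_congr_ae ?_
    filter_upwards [hfin] with ω hω
    rw [hg, ← ENNReal.ofReal_rpow_of_nonneg ENNReal.toReal_nonneg hp.le, ENNReal.ofReal_toReal hω]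
  rw [h1, lintegral_rpow_eq_lintegral_meas_le_mul μ hg0 hgm.aemeasurable hp]
  have htail' : ∀ t : ℝ, 0 < t → μ {ω | t ≤ g ω} ≤ ENNReal.ofReal (Q / t) := fun t ht =>
    (measure_mono fun ω (hω : t ≤ g ω) => by
      show ENNReal.ofReal t ≤ f ω
      exact (ENNReal.ofReal_le_ofReal hω).trans ENNReal.ofReal_toReal_le).trans (htail t ht)
  have hsplit : Set.Ioi (0 : ℝ) = Set.Ioc 0 Q ∪ Set.Ioi Q := (Set.Ioc_union_Ioi_eq_Ioi hQ.le).symm
  have h2 : ∫⁻ t in Set.Ioi 0, μ {ω | t ≤ g ω} * ENNReal.ofReal (t ^ (p - 1)) ≤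
      ENNReal.ofReal (Q ^ p / p) + ENNReal.ofReal (Q ^ p / (1 - p)) := by
    rw [hsplit]
    refine (lintegral_union_le _ _ _).trans (add_le_add ?_ ?_)
    · rw [← int_low hQ hp]
      refine lintegral_mono fun t => ?_
      calc μ {ω | t ≤ g ω} * ENNReal.ofReal (t ^ (p - 1)) ≤ 1 * ENNReal.ofReal (t ^ (p - 1)) := by
            gcongr
            exact prob_le_one
        _ = _ := one_mul _
    · have h3 : ∀ t ∈ Set.Ioi Q, μ {ω | t ≤ g ω} * ENNReal.ofReal (t ^ (p - 1)) ≤
          ENNReal.ofReal Q * ENNReal.ofReal (t ^ (p - 2)) := by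
        intro t ht
        have ht0 : 0 < t := hQ.trans ht
        calc μ {ω | t ≤ g ω} * ENNReal.ofReal (t ^ (p - 1)) ≤
              ENNReal.ofReal (Q / t) * ENNReal.ofReal (t ^ (p - 1)) := by
              gcongr
              exact htail' t ht0
          _ = ENNReal.ofReal Q * ENNReal.ofReal (t ^ (p - 2)) := by
            rw [← ENNReal.ofReal_mul (by positivity), ← ENNReal.ofReal_mul hQ.le]
            congr 1
            rw [show p - 1 = (p - 2) + 1 by ring, Real.rpow_add_one ht0.ne']
            field_simp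
      refine (setLIntegral_mono' measurableSet_Ioi h3).trans ?_
      rw [lintegral_const_mul' _ _ ENNReal.ofReal_ne_top, int_high hQ hp1,
        ← ENNReal.ofReal_mul hQ.le]
      apply ENNReal.ofReal_le_ofReal
      refine le_of_eq ?_
      rw [← mul_div_assoc]
      congr 1
      rw [← Real.rpow_one_add' hQ.le (by linarith)]
      congr 1
      ring
  calc ENNReal.ofReal p * ∫⁻ t in Set.Ioi 0, μ {ω | t ≤ g ω} * ENNReal.ofReal (t ^ (p - 1))
      ≤ ENNReal.ofReal p * (ENNReal.ofReal (Q ^ p / p) + ENNReal.ofReal (Q ^ p / (1 - p))) := by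
        gcongr
    _ = ENNReal.ofReal (Q ^ p / (1 - p)) := by
        have hQp : 0 < Q ^ p := Real.rpow_pos_of_pos hQ p
        have h1p : 0 < 1 - p := by linarith
        rw [← ENNReal.ofReal_add (by positivity) (by positivity), ← ENNReal.ofReal_mul hp.le]
        congr 1
        field_simp
        ring

theorem logm : StmLog := by
  intro Ω _ μ _ f hf Q hQ htail
  set L := Real.log Q with hLdef
  have hL : 0 ≤ L := Real.log_nonneg hQ
  have hQ0 : 0 < Q := by linarith
  have hfm : Measurable fun ω => (ENNReal.log (f ω)).toENNReal :=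
    measurable_ereal_toENNReal.comp (ENNReal.log_monotone.measurable.comp hf)
  have hmeas : ∀ k : ℕ, MeasurableSet {ω | ENNReal.ofReal (L + k) <
      (ENNReal.log (f ω)).toENNReal} := fun k => measurableSet_lt measurable_const hfm
  calc ∫⁻ ω, (ENNReal.log (f ω)).toENNReal ∂μ
      ≤ ∫⁻ ω, (ENNReal.ofReal L + ∑' k : ℕ, (if ENNReal.ofReal (L + k) <
          (ENNReal.log (f ω)).toENNReal then (1 : ℝ≥0∞) else 0)) ∂μ :=
        lintegral_mono fun ω => le_tsum_indicator hL _
    _ = ENNReal.ofReal L + ∑' k : ℕ, μ {ω |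
          ENNReal.ofReal (L + k) < (ENNReal.log (f ω)).toENNReal} := by
        rw [lintegral_add_left measurable_const]
        congr 1
        · simp
        · rw [lintegral_tsum]
          · apply tsum_congr
            intro k
            rw [← lintegral_indicator_one (hmeas k)]
            apply lintegral_congr
            intro d
            simp [Set.indicator_apply]
          · intro k
            exact (Measurable.ite (hmeas k) measurable_const measurable_const).aemeasurable
    _ ≤ ENNReal.ofReal L + ∑' k : ℕ, ENNReal.ofReal (Real.exp (-1) ^ k) := by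
        gcongr with k
        have hsub : {ω | ENNReal.ofReal (L + k) < (ENNReal.log (f ω)).toENNReal} ⊆
            {ω | ENNReal.ofReal (Real.exp (L + k)) ≤ f ω} := by
          intro ω hω
          by_contra hcon
          have hcon' : f ω ≤ ENNReal.ofReal (Real.exp (L + k)) := (not_le.1 hcon).le
          have h2 : ENNReal.log (f ω) ≤ ((L + k : ℝ) : EReal) := by
            refine (ENNReal.log_monotone hcon').trans ?_
            rw [ENNReal.log_ofReal_of_pos (Real.exp_pos _), Real.log_exp]
          have h3 := EReal.toENNReal_le_toENNReal h2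
          rw [EReal.real_coe_toENNReal] at h3
          exact absurd hω (not_lt.2 h3)
        refine (measure_mono hsub).trans ?_
        refine (htail _ (Real.exp_pos _)).trans ?_
        apply ENNReal.ofReal_le_ofReal
        refine le_of_eq ?_
        rw [Real.exp_add, hLdef, Real.exp_log hQ0, ← Real.exp_nat_mul, mul_neg, mul_one,
          Real.exp_neg]
        field_simp
    _ = ENNReal.ofReal L + ENNReal.ofReal ((1 - Real.exp (-1))⁻¹) := by
        congr 1
        have hlt : Real.exp (-1) < 1 := by
          rw [Real.exp_lt_one_iff]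
          norm_num
        rw [← ENNReal.ofReal_tsum_of_nonneg (fun k => by positivity)
          (summable_geometric_of_lt_one (Real.exp_pos _).le hlt),
          tsum_geometric_of_lt_one (Real.exp_pos _).le hlt]
    _ ≤ ENNReal.ofReal L + ENNReal.ofReal 2 := by
        gcongr
        have h3 : Real.exp (-1) ≤ 1 / 2 := by
          rw [Real.exp_neg, one_div]
          apply inv_anti₀ (by norm_num)
          have := Real.add_one_le_exp (1 : ℝ)
          linarith
        rw [inv_le_comm₀ (by linarith) (by norm_num)]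
        linarith
    _ = ENNReal.ofReal (L + 2) := by rw [ENNReal.ofReal_add hL (by norm_num)]

end Pool.Agent.Y980.SC
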