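import Pool.Agent.Y325.SC.Stm

/-!
Project SC (helper325), part SHIFT (helper980): change of variance of a product Gaussian.
-/

set_option autoImplicit false

open MeasureTheory ProbabilityTheory
open scoped ENNReal NNReal

namespace Pool.Agent.Y980.SC

open Pool.Agent.Y325.SC Pool.Agent.H836R3

theorem lint_fin_prod {n : ℕ} (μ : Fin n → Measure ℝ)
    [∀ i, SigmaFinite (μ i)] (f : Fin n → ℝ → ℝ≥0∞) (hf : ∀ i, Measurable (f i)) :
    ∫⁻ x : Fin n → ℝ, ∏ i, f i (x i) ∂(Measure.pi μ) = ∏ i, ∫⁻ x, f i x ∂(μ i) := by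
  induction n with
  | zero => simp
  | succ n n_ih =>
      calc
        _ = ∫⁻ x : ℝ × (Fin n → ℝ),
            f 0 x.1 * ∏ i : Fin n, f (Fin.succ i) (x.2 i)
            ∂((μ 0).prod (Measure.pi (fun i ↦ μ i.succ))) := by
          rw [← ((measurePreserving_piFinSuccAbove μ 0).symm).lintegral_comp_emb
            (MeasurableEquiv.measurableEmbedding _)]
          simp_rw [MeasurableEquiv.piFinSuccAbove_symm_apply, Fin.insertNthEquiv,
            Fin.prod_univ_succ, Fin.insertNth_zero, Equiv.coe_fn_mk, Fin.cons_succ,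
            Fin.zero_succAbove, cast_eq, Fin.cons_zero]
        _ = (∫⁻ x, f 0 x ∂μ 0)
            * ∏ i : Fin n, ∫⁻ (x : ℝ), f (Fin.succ i) x ∂(μ i.succ) := by
          rw [← n_ih (fun i => μ i.succ) (fun i => f i.succ) (fun i => hf _)]
          exact lintegral_prod_mul (hf 0).aemeasurable (Finset.measurable_prod _ (fun i _ =>
            (hf _).comp (measurable_pi_apply i))).aemeasurable
        _ = ∏ i, ∫⁻ x, f i x ∂(μ i) := by rw [Fin.prod_univ_succ]

theorem lint_fintype_prod {ι : Type} [Fintype ι] (μ : ι → Measure ℝ)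
    [∀ i, SigmaFinite (μ i)] (f : ι → ℝ → ℝ≥0∞) (hf : ∀ i, Measurable (f i)) :
    ∫⁻ x : ι → ℝ, ∏ i, f i (x i) ∂(Measure.pi μ) = ∏ i, ∫⁻ x, f i x ∂(μ i) := by
  let e := (Fintype.equivFin ι).symm
  rw [← (measurePreserving_piCongrLeft _ e).lintegral_comp_emb
    (MeasurableEquiv.measurableEmbedding _)]
  simp_rw [← e.prod_comp, MeasurableEquiv.coe_piCongrLeft, Equiv.piCongrLeft_apply_apply]
  exact lint_fin_prod (fun i => μ (e i)) (fun i => f (e i)) (fun i => hf _)

theorem pi_dens {ι : Type} [Fintype ι] (μ : ι → Measure ℝ) [∀ i, SigmaFinite (μ i)]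
    (g : ι → ℝ → ℝ≥0∞) (hg : ∀ i, Measurable (g i))
    [∀ i, SigmaFinite ((μ i).withDensity (g i))] :
    Measure.pi (fun i => (μ i).withDensity (g i)) =
      (Measure.pi μ).withDensity (fun y => ∏ i, g i (y i)) := by
  apply Measure.pi_eq
  intro s hs
  rw [withDensity_apply _ (MeasurableSet.univ_pi hs), Measure.restrict_pi_pi,
    lint_fintype_prod _ _ hg]
  apply Finset.prod_congr rfl
  intro i _
  rw [withDensity_apply _ (hs i)]

lemma gauss_dens (a : ℝ) {σ : ℝ} (hσ : 0 < σ) :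
    gaussianReal a (Real.toNNReal (σ ^ 2)) =
      (gaussianReal a (Real.toNNReal ((Real.sqrt 2 * σ) ^ 2))).withDensity
        (fun x => ENNReal.ofReal (Real.sqrt 2 * Real.exp (-(x - a) ^ 2 / (4 * σ ^ 2)))) := by
  have h1 : Real.toNNReal (σ ^ 2) ≠ 0 := by
    rw [Ne, Real.toNNReal_eq_zero, not_le]
    positivity
  have h2 : Real.toNNReal ((Real.sqrt 2 * σ) ^ 2) ≠ 0 := by
    rw [Ne, Real.toNNReal_eq_zero, not_le]
    positivity
  have hm : Measurable (fun x : ℝ =>
      ENNReal.ofReal (Real.sqrt 2 * Real.exp (-(x - a) ^ 2 / (4 * σ ^ 2)))) := by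
    fun_prop
  rw [gaussianReal_of_var_ne_zero _ h1, gaussianReal_of_var_ne_zero _ h2,
    ← withDensity_mul _ (measurable_gaussianPDF _ _) hm]
  congr 1
  funext x
  rw [Pi.mul_apply, gaussianPDF, gaussianPDF, ← ENNReal.ofReal_mul (gaussianPDFReal_nonneg _ _ _)]
  congr 1
  rw [gaussianPDFReal, gaussianPDFReal, Real.coe_toNNReal _ (by positivity),
    Real.coe_toNNReal _ (by positivity)]
  have hs : (Real.sqrt 2 * σ) ^ 2 = 2 * σ ^ 2 := by
    rw [mul_pow, Real.sq_sqrt (by norm_num)]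
  rw [hs]
  have h3 : Real.sqrt (2 * Real.pi * (2 * σ ^ 2)) =
      Real.sqrt 2 * Real.sqrt (2 * Real.pi * σ ^ 2) := by
    rw [← Real.sqrt_mul (by norm_num)]
    congr 1
    ring
  rw [h3, mul_inv]
  have h4 : Real.sqrt 2 ≠ 0 := by positivity
  have h5 : Real.exp (-(x - a) ^ 2 / (2 * σ ^ 2)) =
      Real.exp (-(x - a) ^ 2 / (2 * (2 * σ ^ 2))) * Real.exp (-(x - a) ^ 2 / (4 * σ ^ 2)) := by
    rw [← Real.exp_add]
    congr 1
    field_simp
    ring
  rw [h5]
  field_simp

theorem shift : StmShift := by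
  intro ι _ a σ hσ R hR S hS hfar
  have hprob : ∀ k, IsProbabilityMeasure
      ((gaussianReal (a k) (Real.toNNReal ((Real.sqrt 2 * σ) ^ 2))).withDensity
        (fun x => ENNReal.ofReal (Real.sqrt 2 * Real.exp (-(x - a k) ^ 2 / (4 * σ ^ 2))))) := by
    intro k
    rw [← gauss_dens (a k) hσ]
    infer_instance
  have hfun : (fun k => gaussianReal (a k) (Real.toNNReal (σ ^ 2))) = fun k =>
      (gaussianReal (a k) (Real.toNNReal ((Real.sqrt 2 * σ) ^ 2))).withDensity
        (fun x => ENNReal.ofReal (Real.sqrt 2 * Real.exp (-(x - a k) ^ 2 / (4 * σ ^ 2)))) :=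
    funext fun k => gauss_dens (a k) hσ
  unfold gaussPi
  rw [hfun, pi_dens (fun k => gaussianReal (a k) (Real.toNNReal ((Real.sqrt 2 * σ) ^ 2)))
    (fun k x => ENNReal.ofReal (Real.sqrt 2 * Real.exp (-(x - a k) ^ 2 / (4 * σ ^ 2))))
    (fun k => by fun_prop), withDensity_apply _ hS]
  have hpt : ∀ y ∈ S, ∏ k, ENNReal.ofReal
      (Real.sqrt 2 * Real.exp (-(y k - a k) ^ 2 / (4 * σ ^ 2))) ≤
        ENNReal.ofReal (Real.sqrt 2 ^ Fintype.card ι * Real.exp (-R ^ 2 / (4 * σ ^ 2))) := by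
    intro y hy
    rw [← ENNReal.ofReal_prod_of_nonneg (fun k _ => by positivity)]
    apply ENNReal.ofReal_le_ofReal
    rw [Finset.prod_mul_distrib, Finset.prod_const, Finset.card_univ, ← Real.exp_sum]
    refine mul_le_mul_of_nonneg_left ?_ (by positivity)
    rw [Real.exp_le_exp, ← Finset.sum_div]
    refine div_le_div_of_nonneg_right ?_ (by positivity)
    rw [Finset.sum_neg_distrib, neg_le_neg_iff]
    exact hfar y hy
  calc _ ≤ ∫⁻ _ in S, ENNReal.ofReal
        (Real.sqrt 2 ^ Fintype.card ι * Real.exp (-R ^ 2 / (4 * σ ^ 2)))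
          ∂(Measure.pi fun k => gaussianReal (a k) (Real.toNNReal ((Real.sqrt 2 * σ) ^ 2))) :=
        setLIntegral_mono' hS hpt
    _ = _ := by rw [setLIntegral_const]

end Pool.Agent.Y980.SC
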